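import Pool.Agent.R719.DD.Pres

set_option autoImplicit false

/-! Projective modules over the integral group ring of a torsion-free group which are presented by
diagonally dominant matrices are stably free, and the constant of dominance is sharp. -/

namespace Pool.Agent.Results.MP_551055_al.DominantPresentations

open Matrix

section defs

variable {G : Type} [Group G]

/-- the sum of the absolute values of the coefficients -/
def norm1 (x : MonoidAlgebra ℤ G) : ℕ := ∑ g ∈ x.coeff.support, (x.coeff g).natAbs

/-- Each row has a coefficient in a column of its own (the column `σ i` for row `i`) whose absolute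
value is at least the sum of the absolute values of all other coefficients of the row. -/
def RowDominant {ν κ : Type} [Fintype κ] (A : Matrix ν κ (MonoidAlgebra ℤ G)) : Prop :=
  ∃ σ : ν → κ, Function.Injective σ ∧
    ∀ i, ∃ g : G, (∑ j, (norm1 (A i j) : ℤ)) ≤ 2 * |(A i (σ i)).coeff g|

/-- Diagonal dominance by rows with the factor `c`: in each row, the sum of the absolute values of
all coefficients of all entries, except the coefficient of `1` in the diagonal entry, is at most `c`
times this coefficient. -/
def Dominant {κ : Type} [Fintype κ] (c : ℝ) (S : Matrix κ κ (MonoidAlgebra ℤ G)) : Prop :=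
  ∀ i, (∑ j, (norm1 (S i j) : ℝ)) - |((S i i).coeff 1 : ℝ)| ≤ c * ((S i i).coeff 1 : ℝ)

/-- `P` is stably free -/
def StablyFree (G : Type) [Group G] (P : Type) [AddCommGroup P] [Module (MonoidAlgebra ℤ G) P] :
    Prop :=
  ∃ n m : ℕ, Nonempty ((P × (Fin n → MonoidAlgebra ℤ G)) ≃ₗ[MonoidAlgebra ℤ G]
    (Fin m → MonoidAlgebra ℤ G))

end defs

open TH57.Thr TH57.TT2 TH6.LF Pool.Agent.R719.DD in
/-- Let `G` be a torsion-free group.

(1) If each row of the matrix `A` over `ℤG` has, in a column of its own, a coefficient at least as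
large as the sum of the absolute values of all its other coefficients, the row space of `A` is free.
(2) A projective module which is presented by `A` is then stably free; the same holds if the
transpose of `A` has this property.

The constant is sharp: let `c > 1`. (3) Every finitely generated projective module is presented by a
square matrix which is diagonally dominant by rows and by columns with the factor `c`. (4) Hence all
finitely generated projective modules are stably free if and only if this is so for those which are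
presented by such matrices. -/
theorem result (G : Type) [Group G] (htf : ∀ g : G, IsOfFinOrder g → g = 1) :
    (∀ (ν κ : Type) [Fintype ν] [Fintype κ] (A : Matrix ν κ (MonoidAlgebra ℤ G)), RowDominant A →
      Module.Free (MonoidAlgebra ℤ G) (LinearMap.range A.vecMulLinear)) ∧
    (∀ (ν κ : Type) [Fintype ν] [Fintype κ] (A : Matrix ν κ (MonoidAlgebra ℤ G)) (P : Type)
      [AddCommGroup P] [Module (MonoidAlgebra ℤ G) P], Module.Projective (MonoidAlgebra ℤ G) P →
      Nonempty (P ≃ₗ[MonoidAlgebra ℤ G]
        ((κ → MonoidAlgebra ℤ G) ⧸ LinearMap.range A.vecMulLinear)) →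
      RowDominant A ∨ RowDominant Aᵀ → StablyFree G P) ∧
    ∀ c : ℝ, 1 < c →
      (∀ (P : Type) [AddCommGroup P] [Module (MonoidAlgebra ℤ G) P],
        Module.Finite (MonoidAlgebra ℤ G) P → Module.Projective (MonoidAlgebra ℤ G) P →
        ∃ (n : ℕ) (A : Matrix (Fin n) (Fin n) (MonoidAlgebra ℤ G)),
          Dominant c A ∧ Dominant c Aᵀ ∧ Nonempty (P ≃ₗ[MonoidAlgebra ℤ G]
            ((Fin n → MonoidAlgebra ℤ G) ⧸ LinearMap.range A.vecMulLinear))) ∧
      ((∀ (P : Type) [AddCommGroup P] [Module (MonoidAlgebra ℤ G) P],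
          Module.Finite (MonoidAlgebra ℤ G) P → Module.Projective (MonoidAlgebra ℤ G) P →
          StablyFree G P) ↔
        ∀ (P : Type) [AddCommGroup P] [Module (MonoidAlgebra ℤ G) P],
          Module.Projective (MonoidAlgebra ℤ G) P →
          (∃ (n : ℕ) (A : Matrix (Fin n) (Fin n) (MonoidAlgebra ℤ G)),
            Dominant c A ∧ Dominant c Aᵀ ∧ Nonempty (P ≃ₗ[MonoidAlgebra ℤ G]
              ((Fin n → MonoidAlgebra ℤ G) ⧸ LinearMap.range A.vecMulLinear))) →
          StablyFree G P) := by
  classical
  have htf' : ∀ g : G, ∀ k : ℕ, 0 < k → g ^ k = 1 → g = 1 := fun g k hk h =>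
    htf g (isOfFinOrder_iff_pow_eq_one.2 ⟨k, hk, h⟩)
  have key : ∀ c : ℝ, 1 < c → ∀ (P : Type) [AddCommGroup P] [Module (MonoidAlgebra ℤ G) P],
        Module.Finite (MonoidAlgebra ℤ G) P → Module.Projective (MonoidAlgebra ℤ G) P →
        ∃ (n : ℕ) (A : Matrix (Fin n) (Fin n) (MonoidAlgebra ℤ G)),
          Dominant c A ∧ Dominant c Aᵀ ∧ Nonempty (P ≃ₗ[MonoidAlgebra ℤ G]
            ((Fin n → MonoidAlgebra ℤ G) ⧸ LinearMap.range A.vecMulLinear)) := by
    intro c hc P _ _ hf hP
    obtain ⟨n, A, ⟨e⟩⟩ := exists_square P hf hP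
    obtain ⟨N₁, h1⟩ := dom_stab c hc A
    obtain ⟨N₂, h2⟩ := dom_stab c hc (adj A)
    set N := max N₁ N₂ with hN
    let U := pm G (Fin n) N
    let V : (Matrix (Fin n ⊕ Fin n × Fin N) (Fin n ⊕ Fin n × Fin N) (MonoidAlgebra ℤ G))ˣ :=
      ⟨adj U.val, adj U⁻¹.val, by rw [← adj_mul, U.inv_mul, adj_one],
        by rw [← adj_mul, U.mul_inv, adj_one]⟩
    obtain ⟨e2⟩ := coker_stab A U V
    set B := U.val * fromBlocks A 0 0 1 * V.val with hB
    have h3 : Dominant c B := by
      have := h1 N (le_max_left _ _)
      rw [← pm_mul] at this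
      exact this
    have h4 : Dominant c Bᵀ := by
      have h5 := h2 N (le_max_right _ _)
      have h6 : adj B = (pm G (Fin n) N).val * fromBlocks (adj A) 0 0 1 *
          adj (pm G (Fin n) N).val := by
        change adj (U.val * fromBlocks A 0 0 1 * adj U.val) = _
        rw [adj_mul, adj_mul, adj_adj, adj_fromBlocks, adj_zero, adj_zero, adj_one,
          Matrix.mul_assoc]
      rw [← pm_mul, ← h6] at h5
      intro i
      have h7 := h5 i
      have h8 : ∀ j, (norm1 (Bᵀ i j) : ℝ) = (Pool.Agent.Y35.KC.TTm.l1 (adj B i j) : ℝ) := by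
        intro j
        rw [adj_apply, l1_bar]; rfl
      have h9 : ((Bᵀ i i).coeff 1 : ℝ) = ((adj B i i).coeff 1 : ℝ) := by
        rw [adj_apply, coeff_bar, inv_one]; rfl
      rw [h9, Finset.sum_congr rfl fun j _ => h8 j]
      exact h7
    -- reindex
    let ee : Fin (Fintype.card (Fin n ⊕ Fin n × Fin N)) ≃ (Fin n ⊕ Fin n × Fin N) :=
      (Fintype.equivFin _).symm
    refine ⟨_, B.submatrix ee ee, ?_, ?_, ?_⟩
    · intro i
      have := h3 (ee i)
      rw [← Equiv.sum_comp ee] at this
      exact this
    · intro i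
      have := h4 (ee i)
      rw [← Equiv.sum_comp ee] at this
      exact this
    · have e3 : ((Fin n ⊕ Fin n × Fin N → MonoidAlgebra ℤ G) ⧸ LinearMap.range B.vecMulLinear)
          ≃ₗ[MonoidAlgebra ℤ G] ((Fin (Fintype.card (Fin n ⊕ Fin n × Fin N)) →
            MonoidAlgebra ℤ G) ⧸ LinearMap.range (B.submatrix ee ee).vecMulLinear) := by
        refine Submodule.Quotient.equiv _ _
          (LinearEquiv.funCongrLeft (MonoidAlgebra ℤ G) (MonoidAlgebra ℤ G) ee) ?_
        ext w
        rw [Submodule.mem_map]
        constructor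
        · rintro ⟨_, ⟨y, rfl⟩, rfl⟩
          refine ⟨y ∘ ee, ?_⟩
          funext j
          simp only [Matrix.vecMulLinear_apply, Matrix.vecMul, dotProduct, Function.comp_apply,
            Matrix.submatrix_apply]
          exact Equiv.sum_comp ee (fun i => y i * B i (ee j))
        · rintro ⟨y, rfl⟩
          refine ⟨_, ⟨y ∘ ee.symm, rfl⟩, ?_⟩
          funext j
          simp only [Matrix.vecMulLinear_apply, Matrix.vecMul, dotProduct,
            Matrix.submatrix_apply]
          refine (Equiv.sum_comp ee (fun i => (y ∘ ee.symm) i * B i (ee j))).symm.trans ?_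
          simp
      exact ⟨(e.trans e2).trans e3⟩
  refine ⟨?_, ?_, fun c hc => ⟨key c hc, ?_, ?_⟩⟩
  · intro ν κ _ _ A hA
    exact free_of_RB A (RB_of_RDom htf' A hA)
  · rintro ν κ _ _ A P _ _ hP ⟨e⟩ hA
    obtain ⟨Y, hY⟩ := regular_of_projective A P hP e
    have hSFC : SFC A := by
      rcases hA with hA | hA
      · exact SFC_of_RB A (RB_of_RDom htf' A hA) Y hY
      · apply SFC_of_adj
        refine SFC_of_RB (adj A) (RB_of_RDom htf' (adj A) ?_) (adj Y) ?_
        · obtain ⟨σ, hσ, h⟩ := hA
          refine ⟨σ, hσ, fun i => ?_⟩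
          obtain ⟨g, hg⟩ := h i
          refine ⟨g⁻¹, ?_⟩
          rw [adj_apply, coeff_bar, inv_inv]
          refine le_trans (le_of_eq ?_) hg
          refine Finset.sum_congr rfl fun j _ => ?_
          rw [adj_apply, l1_bar]; rfl
        · rw [← adj_mul, ← adj_mul, ← Matrix.mul_assoc, hY]
    exact free_of_SFC A hSFC P e
  · intro h P _ _ hP hA
    obtain ⟨n, A, _, _, ⟨e⟩⟩ := hA
    exact h P (Module.Finite.equiv e.symm) hP
  · intro h P _ _ hf hP
    exact h P hP (key c hc P hf hP)

end Pool.Agent.Results.MP_551055_al.DominantPresentations
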