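import Pool.Agent.R779.FJ.Ports

/-!
# Stably free modules: extensions by even Artin groups

`C` is any class of groups with the closure properties `ClosedE C`, all of which are known for the
class of the groups that satisfy the K-theoretic Farrell–Jones conjecture with coefficients and
finite wreath products; for the torsion-free groups in that class all finitely generated projective
modules over the integral group ring are stably free.

Let `A` be the even Artin group of an arbitrary, possibly infinite, labelled graph. If the graph is
of type FC (no triangle has two labels greater than two; for instance there are no triangles at
all), or if all the even Artin groups of the finite complete subgraphs are in `C`, then every group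
`G` with a normal subgroup `N ≅ A` such that `G ⧸ N` is in `C` and the elements of `G` act on `N` by
automorphisms of the labelled graph up to inner automorphisms is in `C`. The extension need not
split. So for the torsion-free subgroups of `G` all finitely generated projective modules over the
integral group ring are stably free.

Outline of the proof. By a realization criterion it is enough to extend partial isomorphisms of
finite labelled graphs to automorphisms of finite labelled graphs whose Artin groups are in `C`.
This is done by gluing many copies of the graph cyclically: the result has a new automorphism, but
all its complete subgraphs lie in the copies. An even Artin group of a finite graph which is not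
complete is an amalgamated product of two special subgroups, which are retracts; so it embeds in an
extension of their product by a permutationally free group, and is in `C` by induction.
-/

set_option autoImplicit false

namespace Pool.Agent.Results.MP_551055_al.EvenArtinExtensions

open Pool.Agent.Y110.FJ Pool.Agent.R779.FJ Pool.Agent.R779.FJ.Ports

theorem result (C : ∀ (G : Type) [Group G], Prop) (hC : ClosedE C)
    (hS : ∀ (Γ : Type) [Group Γ], TorsionFree Γ → C Γ →
      StablyFree Γ)
    (V : Type) (k : V → V → ℕ) (hk : ∀ v w, k v w = k w v) (hcl : TypeFC k ∨ CliquesIn C k)
    (G : Type) [Group G] (N : Subgroup G) [N.Normal] (hQ : C (G ⧸ N)) (e : EvenArtin k ≃* N)
    (hact : ActsByGraph k N e) :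
    C G ∧ ∀ (Γ : Type) [Group Γ], TorsionFree Γ →
      ∀ j : Γ →* G, Function.Injective j →
        StablyFree Γ := by
  have h1 : C G := thmB C hC V k hk hcl G N hQ e hact
  exact ⟨h1, fun Γ _ hΓ j hj => hS Γ hΓ (hC.base.of_injective _ _ j hj h1)⟩

end Pool.Agent.Results.MP_551055_al.EvenArtinExtensions
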