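import Pool.Agent.R472.GridPres

set_option autoImplicit false

/-! # Projective modules over integral group rings and the square grid

Every finitely generated projective module over the integral group ring of a group with generating set
`S` is presented by a square matrix whose rows (relations) and columns (generators) are different points
of the square grid, whose entries are zero except between neighbouring points, whose nonzero entries
are of the form `± s` with `s = 1`, `s ∈ S` or `s⁻¹ ∈ S`, with at most three of them in each row and in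
each column. A projective module presented by a matrix (of any shape) with entries `0` and `± g` and at
most two nonzero entries in each row is free, and with at most two nonzero entries in each column it is
stably free.

Outline. (1) A finitely generated projective module is the cokernel of a square matrix, and the
cokernel does not change under stabilisation and multiplication by invertible matrices, so the normal
form of `MP_8f66f0_al.GridForm` applies (it does not need an invertible matrix). (2) A relation
`u x + v y = 0` with units `u`, `v` eliminates a generator and keeps the form of the relations. If all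
relations involve one generator only, the module is a sum of cyclic modules `ℤG / I`; these are
projective, so `I` is generated by an idempotent, and `I = 0` or `I = ℤG` by Kaplansky's theorem. The
case of columns is dual to this. The lemmas on presentations are those of `DominantPresentations`
(helper719) and of the starting library. -/

namespace Pool.Agent.Results.MP_551055_al.GridPresentations

open Matrix

section defs

variable {G : Type} [Group G]

/-- neighbouring points of the square grid -/
def Neighbours (a b : ℤ × ℤ) : Prop :=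
  (a.1 = b.1 ∧ (a.2 = b.2 + 1 ∨ a.2 + 1 = b.2)) ∨ (a.2 = b.2 ∧ (a.1 = b.1 + 1 ∨ a.1 + 1 = b.1))

/-- A matrix which is supported on a finite piece of the square grid: its rows are at the points
`ρ i`, its columns at the points `c j`, all these points are different, the entry at `i j` is zero
unless `ρ i` and `c j` are neighbours; the nonzero entries are `± s` with `s = 1`, `s ∈ S` or
`s⁻¹ ∈ S`; each row and each column has at most three of them. -/
def OnGrid (S : Set G) {κ : Type} (B : Matrix κ κ (MonoidAlgebra ℤ G)) : Prop :=
  ∃ ρ c : κ → ℤ × ℤ, Function.Injective ρ ∧ Function.Injective c ∧ (∀ i j, ρ i ≠ c j) ∧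
    (∀ i j, B i j ≠ 0 → Neighbours (ρ i) (c j)) ∧
    (∀ i j, B i j = 0 ∨ ∃ s : G, (s = 1 ∨ s ∈ S ∨ s⁻¹ ∈ S) ∧
      (B i j = MonoidAlgebra.single s 1 ∨ B i j = MonoidAlgebra.single s (-1))) ∧
    (∀ i, {j | B i j ≠ 0}.ncard ≤ 3) ∧ (∀ j, {i | B i j ≠ 0}.ncard ≤ 3)

/-- all nonzero entries are `± g` -/
def SignedElements {ι κ : Type} (B : Matrix ι κ (MonoidAlgebra ℤ G)) : Prop :=
  ∀ i j, B i j = 0 ∨ ∃ g : G, B i j = MonoidAlgebra.single g 1 ∨
    B i j = MonoidAlgebra.single g (-1)

/-- the left module `P` is presented by the matrix `B`: one generator for each column, one relation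
for each row -/
def PresentedBy {ι κ : Type} [Fintype ι] (B : Matrix ι κ (MonoidAlgebra ℤ G)) (P : Type)
    [AddCommGroup P] [Module (MonoidAlgebra ℤ G) P] : Prop :=
  Nonempty (P ≃ₗ[MonoidAlgebra ℤ G]
    ((κ → MonoidAlgebra ℤ G) ⧸ LinearMap.range B.vecMulLinear))

/-- `P` is stably free -/
def StablyFree (G : Type) [Group G] (P : Type) [AddCommGroup P] [Module (MonoidAlgebra ℤ G) P] :
    Prop :=
  ∃ n m : ℕ, Nonempty ((P × (Fin n → MonoidAlgebra ℤ G)) ≃ₗ[MonoidAlgebra ℤ G]
    (Fin m → MonoidAlgebra ℤ G))

end defs

open TH57.Thr TH57.TT2 TH6.LF Pool.Agent.R719.DD Pool.Agent.R472.Grid in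
/-- Let `G` be any group and `S` a set of generators of `G`.

(1) Every finitely generated projective `ℤG`-module is presented by a square matrix supported on a
piece of the square grid, with entries `0` and `± s`, and at most three nonzero ones in each row and
column. (2) Three cannot be replaced by two: a projective module which is presented by a finite matrix
with entries `0` and `± g` (`g` any elements of `G`, no condition on the positions) is free if each row
has at most two nonzero entries, and stably free if each column has at most two nonzero entries.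
(3) Hence all finitely generated projective `ℤG`-modules are stably free if and only if those presented
by matrices on the grid are. -/
theorem result (G : Type) [Group G] (S : Set G) (hS : Subgroup.closure S = ⊤) :
    (∀ (P : Type) [AddCommGroup P] [Module (MonoidAlgebra ℤ G) P],
      Module.Finite (MonoidAlgebra ℤ G) P → Module.Projective (MonoidAlgebra ℤ G) P →
      ∃ (κ : Type) (_ : Fintype κ) (B : Matrix κ κ (MonoidAlgebra ℤ G)),
        OnGrid S B ∧ PresentedBy B P) ∧
    (∀ (ι κ : Type) [Fintype ι] [Fintype κ] (B : Matrix ι κ (MonoidAlgebra ℤ G)) (P : Type)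
      [AddCommGroup P] [Module (MonoidAlgebra ℤ G) P], Module.Projective (MonoidAlgebra ℤ G) P →
      PresentedBy B P → SignedElements B →
      ((∀ i, {j | B i j ≠ 0}.ncard ≤ 2) → Module.Free (MonoidAlgebra ℤ G) P) ∧
      ((∀ j, {i | B i j ≠ 0}.ncard ≤ 2) → StablyFree G P)) ∧
    ((∀ (P : Type) [AddCommGroup P] [Module (MonoidAlgebra ℤ G) P],
        Module.Finite (MonoidAlgebra ℤ G) P → Module.Projective (MonoidAlgebra ℤ G) P →
        StablyFree G P) ↔
      ∀ (κ : Type) [Fintype κ] (B : Matrix κ κ (MonoidAlgebra ℤ G)) (P : Type) [AddCommGroup P]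
        [Module (MonoidAlgebra ℤ G) P], OnGrid S B → PresentedBy B P →
        Module.Projective (MonoidAlgebra ℤ G) P → StablyFree G P) := by
  classical
  let 𝒢 : Set (MonoidAlgebra ℤ G) := {x | ∃ s : G, (s = 1 ∨ s ∈ S ∨ s⁻¹ ∈ S) ∧
      (x = MonoidAlgebra.single s 1 ∨ x = MonoidAlgebra.single s (-1))}
  have h1 : (1 : MonoidAlgebra ℤ G) ∈ 𝒢 := ⟨1, Or.inl rfl, Or.inl MonoidAlgebra.one_def⟩
  have hneg : ∀ g ∈ 𝒢, -g ∈ 𝒢 := by
    rintro _ ⟨s, hs, rfl | rfl⟩
    · exact ⟨s, hs, Or.inr (by rw [MonoidAlgebra.single_neg])⟩
    · exact ⟨s, hs, Or.inl (by rw [← MonoidAlgebra.single_neg]; norm_num)⟩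
  have key : ∀ (P : Type) [AddCommGroup P] [Module (MonoidAlgebra ℤ G) P],
      Module.Finite (MonoidAlgebra ℤ G) P → Module.Projective (MonoidAlgebra ℤ G) P →
      ∃ (κ : Type) (_ : Fintype κ) (B : Matrix κ κ (MonoidAlgebra ℤ G)),
        OnGrid S B ∧ PresentedBy B P := by
    intro P _ _ hf hP
    obtain ⟨n, A, ⟨e⟩⟩ := exists_square P hf hP
    obtain ⟨ν, i1, i2, U, V, _, ρ, c, a1, a2, a3, a4, a5, a6, a7⟩ :=
      grid_form h1 hneg (genBy S hS) A
    obtain ⟨e2⟩ := coker_stab A U V
    exact ⟨Fin n ⊕ ν, inferInstance, U.val * fromBlocks A 0 0 1 * V.val,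
      ⟨ρ, c, a1, a2, a3, a4, a5, a6, a7⟩, ⟨e.trans e2⟩⟩
  refine ⟨key, ?_, ?_, ?_⟩
  · rintro ι κ _ _ B P _ _ hP ⟨e⟩ hB
    exact ⟨fun h => free_two_rows B h hB P hP e, fun h => free_two_cols B h hB P hP e⟩
  · rintro h κ _ B P _ _ _ ⟨e⟩ hP
    exact h P (Module.Finite.equiv e.symm) hP
  · intro h P _ _ hf hP
    obtain ⟨κ, i1, B, hB, hB2⟩ := key P hf hP
    exact h κ B P hB hB2 hP

end Pool.Agent.Results.MP_551055_al.GridPresentations
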